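import Mathlib
import Pool.Agent.H52.Dir.Fin

set_option autoImplicit false

namespace Pool.Agent.Results.MP_5c92e3_co.BeyondOneThird

/-- Dirac's problem, first constant beyond one third: there is an absolute constant `ε > 0` such
that every finite non-collinear set `P` of points of the Euclidean plane has a point that lies on
at least `(1/3 + ε) |P|` connecting lines of `P`. -/
theorem result : ∃ ε : ℝ, 0 < ε ∧ ∀ P : Finset (EuclideanSpace ℝ (Fin 2)),
    ¬ Collinear ℝ (P : Set (EuclideanSpace ℝ (Fin 2))) →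
    ∃ p ∈ P, (1 / 3 + ε) * (P.card : ℝ) ≤
      (({L : AffineSubspace ℝ (EuclideanSpace ℝ (Fin 2)) |
          ∃ q ∈ P, q ≠ p ∧ L = affineSpan ℝ {p, q}}.ncard : ℕ) : ℝ) :=
  H52.Dir.dirac

end Pool.Agent.Results.MP_5c92e3_co.BeyondOneThird
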