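import Mathlib
import Pool.Agent.H12.Dirac.Data85

set_option autoImplicit false

namespace Pool.Agent.Results.MP_5c92e3_co.ConstantThirteenHalves

/-- There are 85 points of the Euclidean plane, not all collinear, each of which lies on at most
`36 = 85 / 2 - 13 / 2` connecting lines. -/
theorem result : ∃ S : Finset (EuclideanSpace ℝ (Fin 2)), S.card = 85 ∧
    ¬ Collinear ℝ (S : Set (EuclideanSpace ℝ (Fin 2))) ∧
    ∀ p ∈ S, {L : AffineSubspace ℝ (EuclideanSpace ℝ (Fin 2)) |
      ∃ q ∈ S, q ≠ p ∧ L = affineSpan ℝ {p, q}}.ncard ≤ 36 := by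
  have h := Pool.Agent.H12.Dirac.exists_config (d := 2) (by norm_num)
    (by simpa using irrational_sqrt_two) Pool.Agent.H12.Dirac.pts85 36
    Pool.Agent.H12.Dirac.chart85 Pool.Agent.H12.Dirac.distinct85 Pool.Agent.H12.Dirac.few85
    Pool.Agent.H12.Dirac.noncol85
  rw [Pool.Agent.H12.Dirac.len85] at h
  exact h

end Pool.Agent.Results.MP_5c92e3_co.ConstantThirteenHalves
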