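import Mathlib
import Pool.Agent.H70.Dirac.Final

set_option autoImplicit false

namespace Pool.Agent.Results.MP_5c92e3_co.CubicCurves

/-- Dirac's bound for point sets which lie, up to `t` points, on a plane algebraic curve of degree
at most three (possibly reducible): some point is on at least `n / 2 - (t + 1) / 2` connecting
lines. -/
theorem result (P : Finset (EuclideanSpace ℝ (Fin 2)))
    (hP : ¬ Collinear ℝ (P : Set (EuclideanSpace ℝ (Fin 2))))
    (F : MvPolynomial (Fin 2) ℝ) (hF : F ≠ 0) (hdeg : F.totalDegree ≤ 3) (t : ℕ)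
    (ht : {p : EuclideanSpace ℝ (Fin 2) | p ∈ P ∧
      MvPolynomial.eval (fun i => p i) F ≠ 0}.ncard ≤ t) :
    ∃ p ∈ P, (P.card : ℝ) / 2 - ((t : ℝ) + 1) / 2 ≤
      (({L : AffineSubspace ℝ (EuclideanSpace ℝ (Fin 2)) |
          ∃ q ∈ P, q ≠ p ∧ L = affineSpan ℝ {p, q}}.ncard : ℕ) : ℝ) :=
  Pool.Agent.H70.Dirac.dirac_cubic P hP F hF hdeg t ht

end Pool.Agent.Results.MP_5c92e3_co.CubicCurves
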