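import Mathlib
import Pool.Agent.H65.DI.Fin

set_option autoImplicit false

/-!
# MP_5c92e3_co: point sets on four lines through a common point, or on four parallel lines

The lines are `u i * x + v i * y + w i = 0`; that they have a common point or are all parallel is
expressed by a nonzero vector `(a, b, c)` with `u i * a + v i * b + w i * c = 0` for all `i`.
-/

namespace Pool.Agent.Results.MP_5c92e3_co.FourConcurrentLines

/-- Dirac's bound for point sets all but `t` points of which lie on four lines (not necessarily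
distinct) with a common point, or on four parallel lines. -/
theorem result (P : Finset (EuclideanSpace ℝ (Fin 2)))
    (hP : ¬ Collinear ℝ (P : Set (EuclideanSpace ℝ (Fin 2))))
    (u v w : Fin 4 → ℝ) (huv : ∀ i, u i ≠ 0 ∨ v i ≠ 0)
    (a b c : ℝ) (habc : a ≠ 0 ∨ b ≠ 0 ∨ c ≠ 0) (hO : ∀ i, u i * a + v i * b + w i * c = 0)
    (t : ℕ) (ht : {p : EuclideanSpace ℝ (Fin 2) | p ∈ P ∧
      ∀ i, u i * p 0 + v i * p 1 + w i ≠ 0}.ncard ≤ t) :
    ∃ p ∈ P, (P.card : ℝ) / 2 - ((t : ℝ) + 1) / 2 ≤
      (({L : AffineSubspace ℝ (EuclideanSpace ℝ (Fin 2)) |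
          ∃ q ∈ P, q ≠ p ∧ L = affineSpan ℝ {p, q}}.ncard : ℕ) : ℝ) := by
  refine Pool.Agent.H65.DI.dirac_pencil P hP (fun i => (u i, v i, w i)) ?_ (a, b, c) ?_ hO t ht
  · intro i h
    rw [Prod.mk.injEq] at h
    rcases huv i with h1 | h1
    · exact h1 h.1
    · exact h1 h.2
  · intro h
    rw [Prod.mk.injEq, Prod.mk.injEq] at h
    rcases habc with h1 | h1 | h1
    · exact h1 h.1
    · exact h1 h.2.1
    · exact h1 h.2.2

end Pool.Agent.Results.MP_5c92e3_co.FourConcurrentLines
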